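import Pool.Agent.helper68.GB.Spec
import Pool.Agent.helper59.FI4.SpecI

/-!
# Project GB (MP_baa4d7_al), row ZHE: heredity of defect groups, relative form (transfer to the type `L`)
-/

set_option autoImplicit false

namespace Pool.Agent.GB

open Pool.Agent.helper58.DC Pool.Agent.DI Pool.Agent.GR Pool.Agent.OB Pool.Agent.DR Pool.Agent.FI Pool.Agent.FI3 Pool.Agent.FI4 Pool.Agent.LE Pool.Agent.BR

theorem ZHE_cjS {G : Type} [Group G] (L Q : Subgroup G) (g : L) :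
    cjS g (Q.subgroupOf L) = (cjS (g : G) Q).subgroupOf L := by
  ext x
  rw [mem_cjS, Subgroup.mem_subgroupOf, Subgroup.mem_subgroupOf, mem_cjS]
  exact Iff.rfl

theorem ZHE_le {G : Type} [Group G] (L Q R : Subgroup G) (hQ : Q ≤ L) :
    Q.subgroupOf L ≤ R.subgroupOf L ↔ Q ≤ R := by
  constructor
  · intro h x hx
    exact Subgroup.mem_subgroupOf.1 (h (show (⟨x, hQ hx⟩ : L) ∈ Q.subgroupOf L from Subgroup.mem_subgroupOf.2 hx))
  · intro h x hx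
    exact Subgroup.mem_subgroupOf.2 (h (Subgroup.mem_subgroupOf.1 hx))

theorem ZHE_cjL {G : Type} [Group G] (L Q : Subgroup G) (hQ : Q ≤ L) (g : G) (hg : g ∈ L) : cjS g Q ≤ L := by
  intro x hx
  have h1 := hQ (mem_cjS.1 hx)
  have h2 : x = g * (g⁻¹ * x * g) * g⁻¹ := by group
  rw [h2]
  exact L.mul_mem (L.mul_mem hg h1) (L.inv_mem hg)

theorem ZHE (hZH0 : ZH0_stmt) (hTR1 : Pool.Agent.FI4I.TR1_stmt) (hTR2 : Pool.Agent.FI4I.TR2_stmt) (hTR3 : Pool.Agent.FI4I.TR3_stmt)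
    (hCLS : CLS_stmt) (hTPR : Pool.Agent.FI.TPR_stmt) : ZHE_stmt := by
  intro p M hS G _ _ L D x ψ hψ hD K Q y hKL η hη hSB hQ hcz
  have hDL : D ≤ L := fun d hd => (Subgroup.mem_inf.1 (hD.le hd)).1
  have hQK : Q ≤ K := fun d hd => (Subgroup.mem_inf.1 (hQ.le hd)).1
  have hQL : Q ≤ L := hQK.trans hKL
  have hself : L.subgroupOf L = ⊤ := Subgroup.subgroupOf_self L
  obtain ⟨a1, -, -⟩ := hTR1 G L L le_rfl
  obtain ⟨a1', -, -⟩ := hTR1 G L K hKL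
  obtain ⟨b1, b2, b3, b4⟩ := hTR2 G M L
  obtain ⟨c1, c2, c3, c4, c5⟩ := hTR3 p G L
  obtain ⟨d1, d2, -, -, d5⟩ := hTPR p M hS L
  have hψL : ∀ y, y ∉ L → ψ y = 0 := hψ.1
  have hηL : ∀ y, y ∉ L → η y = 0 := fun y hy => hη.1 y (fun h => hy (hKL h))
  have hom : ∀ y : L, omega (Pool.Agent.FI4I.rN L ψ) y = cc ψ (cls L (y : G)) := by
    intro y
    rw [(hCLS L (⊤ : Subgroup L) y).2.2.2.2.2.2.2.1 (Pool.Agent.FI4I.rN L ψ), ← hself, ← b3 L le_rfl y]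
    exact b1 ψ _ hψL
  have hom' : ∀ y : L, cc (Pool.Agent.FI4I.rN L η) (cls (K.subgroupOf L) y) = cc η (cls K (y : G)) := by
    intro y
    rw [← b3 K hKL y]
    exact b1 η _ hηL
  have hcen : ∀ y : L, pp p (Subgroup.centralizer ({y} : Set L)) = pp p (Cz L (y : G)) := by
    intro y
    rw [← d5 y, ← hself]
    exact (c3 L le_rfl y).2
  have hcard : Nat.card (D.subgroupOf L) = Nat.card D := (c2 D hDL).1
  have hcardQ : Nat.card (Q.subgroupOf L) = Nat.card Q := (c2 Q hQL).1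
  have hirr : Pool.Agent.FI4I.rN L ψ ∈ Irr L := by
    rw [← d1, ← hself]
    exact (a1 ψ hψL).1 hψ
  have hdef : DefAt p M (Pool.Agent.FI4I.rN L ψ) (D.subgroupOf L) ⟨x, hD.mem⟩ := by
    refine ⟨?_, ?_, ?_, ?_, ?_, ?_⟩
    · exact (c4 ⟨x, hD.mem⟩).1.2 hD.reg
    · rw [hom]
      exact hD.ne
    · intro d hd
      have h1 : (d : G) ∈ D := Subgroup.mem_subgroupOf.1 hd
      rw [Subgroup.mem_centralizer_iff]
      rintro _ rfl
      have h2 := (Subgroup.mem_inf.1 (hD.le h1)).2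
      rw [Subgroup.mem_centralizer_iff] at h2
      exact Subtype.ext (h2 x rfl)
    · exact (c2 D hDL).2.2 hD.pg
    · rw [hcard, hcen]
      exact hD.card
    · intro w hw
      rw [hom] at hw
      rw [hcard, hcen]
      exact hD.min w w.2 hw
  have hη' : Pool.Agent.FI4I.rN L η ∈ IrrOn (K.subgroupOf L) := (a1' η hηL).1 hη
  have hSB' : SB M (⊤ : Subgroup L) (Pool.Agent.FI4I.rN L η) (Pool.Agent.FI4I.rN L ψ) := by
    rw [← hself]
    exact (b2 L le_rfl η ψ hηL hψL).1 hSB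
  have hyL : y ∈ L := hKL hQ.mem
  have hdefQ : DefL p M (K.subgroupOf L) (Pool.Agent.FI4I.rN L η) (Q.subgroupOf L) ⟨y, hyL⟩ := by
    refine ⟨?_, ?_, ?_, ?_, ?_, ?_, ?_⟩
    · exact (c4 ⟨y, hyL⟩).1.2 hQ.reg
    · exact Subgroup.mem_subgroupOf.2 hQ.mem
    · rw [(c3 K hKL ⟨y, hyL⟩).1, ZHE_le L Q _ hQL]
      exact hQ.le
    · exact (c2 Q hQL).2.2 hQ.pg
    · rw [hcardQ, (c3 K hKL ⟨y, hyL⟩).2]
      exact hQ.card
    · rw [hom']
      exact hQ.ne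
    · intro w hw hw'
      rw [hom'] at hw'
      rw [hcardQ, (c3 K hKL w).2]
      exact hQ.min w (Subgroup.mem_subgroupOf.1 hw) hw'
  have hczQ : cz (Q.subgroupOf L) ≤ K.subgroupOf L := by
    rw [(c1 Q hQL).1]
    intro w hw
    exact Subgroup.mem_subgroupOf.2 (hcz (Subgroup.mem_inf.2 ⟨w.2, Subgroup.mem_subgroupOf.1 hw⟩))
  obtain ⟨⟨g, hg1, hg2⟩, h2⟩ := hZH0 p M hS L (D.subgroupOf L) ⟨x, hD.mem⟩ (Pool.Agent.FI4I.rN L ψ) hirr hdef
    (K.subgroupOf L) (Q.subgroupOf L) ⟨y, hyL⟩ (Pool.Agent.FI4I.rN L η) hη' hSB' hdefQ hczQ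
  refine ⟨⟨(g : G), g.2, ?_, ?_⟩, ?_⟩
  · rw [ZHE_cjS, ZHE_le L _ _ (ZHE_cjL L Q hQL g g.2)] at hg1
    exact hg1
  · intro d hd
    obtain ⟨hd1, hd2⟩ := Subgroup.mem_inf.1 hd
    have hdL : d ∈ L := hDL hd1
    have h3 : (⟨d, hdL⟩ : L) ∈ D.subgroupOf L ⊓ cz (cjS g (Q.subgroupOf L)) := by
      refine Subgroup.mem_inf.2 ⟨Subgroup.mem_subgroupOf.2 hd1, ?_⟩
      rw [ZHE_cjS, (c1 (cjS (g : G) Q) (ZHE_cjL L Q hQL g g.2)).1]
      exact Subgroup.mem_subgroupOf.2 hd2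
    have h4 := hg2 h3
    rw [ZHE_cjS] at h4
    exact Subgroup.mem_subgroupOf.1 h4
  · intro hl
    have h5 := h2 (fun l hl' => by
      rw [ZHE_cjS, ZHE_le L _ _ (ZHE_cjL L Q hQL l l.2)] at hl'
      have h6 := hl l l.2 hl'
      rw [ZHE_cjS, ZHE_le L _ _ (ZHE_cjL L D hDL _ (l⁻¹).2)]
      exact h6)
    rw [hcardQ, hcard] at h5
    exact h5

end Pool.Agent.GB
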